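import Mathlib
import Pool.Agent.U398.MV.Stm2
import Pool.Agent.U338.MV.MT

/-!
# The main term at an arbitrary shift (package MTS of project MV2)
-/

set_option autoImplicit false

namespace Pool.Agent.U125.MV2.MTS

open Pool.Agent.U398.MV MeasureTheory Filter Topology Set Complex
open Pool.Agent.U338.MV.MT (int_inv_sq)

/-- **Package MTS.** -/
theorem t_MTS : S_RQ → S_VCS → S_PP → S_PPS → S_MTS := by
  rintro ⟨CR, hCR, hqc, -, -, hq1, -, hq3, -⟩ ⟨CV, hCV, hV⟩ ⟨CP, T0, hCP, hT0, hVc, -, hV0, hVb, -⟩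
    ⟨CS, TS, hCS, hTS, hSc, hSb, -⟩
  refine ⟨4 * CR * CP + CV + 1, by positivity, ?_⟩
  intro L hL s hs
  have hLpos : 0 < L := by linarith
  have hL2 : (1 : ℝ) ≤ L / 2 := by linarith
  have hCR0 : 0 < CR := by linarith
  have hA := hV L hL s hs
  set Z : ℝ := Real.log ‖riemannZeta (((1 + 1 / L : ℝ) : ℂ) + s * I)‖ with hZ
  set A : ℝ := ∫ u in (1 : ℝ)..(L / 2), Vps s u / u ^ 2 with hAdef
  have hne : ∀ u ∈ uIcc (1 : ℝ) (L / 2), u ≠ 0 := by
    intro u hu
    rw [uIcc_of_le hL2] at hu
    have := hu.1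
    positivity
  have hcont : ContinuousOn (fun u => Vps s u / u ^ 2) (uIcc 1 (L / 2)) := by
    apply ContinuousOn.div
    · exact (hSc s).continuousOn
    · fun_prop
    · intro u hu
      exact pow_ne_zero 2 (hne u hu)
  have hint : IntervalIntegrable (fun u => Vps s u / u ^ 2) volume 1 (L / 2) :=
    hcont.intervalIntegrable
  have hVps : ∀ u, 0 ≤ u → |Vps s u| ≤ CP * (1 + u) := fun u hu => (hSb s u).trans (hVb u hu)
  -- split
  have hrV : Continuous fun u => qq u * Vps s u := hqc.mul (hSc s)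
  have hsplit : ∫ u in (0 : ℝ)..(L / 2), qq u * Vps s u =
      (∫ u in (0 : ℝ)..1, qq u * Vps s u) + ∫ u in (1 : ℝ)..(L / 2), qq u * Vps s u :=
    (intervalIntegral.integral_add_adjacent_intervals (hrV.intervalIntegrable _ _)
      (hrV.intervalIntegrable _ _)).symm
  have hB1 : |∫ u in (0 : ℝ)..1, qq u * Vps s u| ≤ 2 * CR * CP := by
    have : ∀ u ∈ uIoc (0 : ℝ) 1, ‖qq u * Vps s u‖ ≤ 2 * CR * CP := by
      intro u hu
      rw [uIoc_of_le zero_le_one] at hu
      rw [Real.norm_eq_abs, abs_mul]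
      have h2 : |Vps s u| ≤ CP * 2 := (hVps u hu.1.le).trans (by nlinarith [hu.2])
      calc |qq u| * |Vps s u| ≤ CR * (CP * 2) := mul_le_mul (hq1 u) h2 (abs_nonneg _) hCR0.le
        _ = 2 * CR * CP := by ring
    have := intervalIntegral.norm_integral_le_of_norm_le_const this
    rw [Real.norm_eq_abs] at this
    simpa using this
  set M : ℝ → ℝ := fun u => 1 / (2 * Real.pi * u ^ 2) with hM
  have hMc : ContinuousOn (fun u => M u * Vps s u) (uIcc 1 (L / 2)) := by
    apply ContinuousOn.mul _ (hSc s).continuousOn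
    apply ContinuousOn.div continuousOn_const (by fun_prop)
    intro u hu
    exact mul_ne_zero (mul_ne_zero two_ne_zero Real.pi_ne_zero) (pow_ne_zero 2 (hne u hu))
  have hMi : IntervalIntegrable (fun u => M u * Vps s u) volume 1 (L / 2) := hMc.intervalIntegrable
  have hB2 : |(∫ u in (1 : ℝ)..(L / 2), qq u * Vps s u) -
      ∫ u in (1 : ℝ)..(L / 2), M u * Vps s u| ≤ 2 * CR * CP := by
    rw [← intervalIntegral.integral_sub (hrV.intervalIntegrable _ _) hMi]
    have hb : ∀ u ∈ Ioc (1 : ℝ) (L / 2), ‖qq u * Vps s u - M u * Vps s u‖ ≤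
        2 * CR * CP / u ^ 2 := by
      intro u hu
      have hu1 : 1 ≤ u := hu.1.le
      have hu0 : 0 < u := by linarith
      rw [← sub_mul, Real.norm_eq_abs, abs_mul]
      have h1 := hq3 u hu1
      have h4 : |Vps s u| ≤ CP * (2 * u) := (hVps u hu0.le).trans (by nlinarith)
      calc |qq u - M u| * |Vps s u| ≤ (CR / u ^ 3) * (CP * (2 * u)) :=
            mul_le_mul h1 h4 (abs_nonneg _) (by positivity)
        _ = 2 * CR * CP / u ^ 2 := by field_simp
    have hgi : IntervalIntegrable (fun u : ℝ => 2 * CR * CP / u ^ 2) volume 1 (L / 2) := by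
      apply ContinuousOn.intervalIntegrable
      apply ContinuousOn.div continuousOn_const (by fun_prop)
      intro u hu
      exact pow_ne_zero 2 (hne u hu)
    have := intervalIntegral.norm_integral_le_of_norm_le hL2 (Filter.Eventually.of_forall hb) hgi
    rw [Real.norm_eq_abs, int_inv_sq _ _ hL2] at this
    refine this.trans ?_
    have : 0 ≤ 1 / (L / 2) := by positivity
    have h5 : 0 ≤ 2 * CR * CP := by positivity
    nlinarith
  have hMval : ∫ u in (1 : ℝ)..(L / 2), M u * Vps s u = 1 / (2 * Real.pi) * A := by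
    rw [hAdef, ← intervalIntegral.integral_const_mul]
    apply intervalIntegral.integral_congr
    intro u hu
    have hu0 := hne u hu
    simp only [hM]
    field_simp
  have hsq : 0 < Real.sqrt Real.pi := Real.sqrt_pos.2 Real.pi_pos
  have hsqsq : Real.sqrt Real.pi * Real.sqrt Real.pi = Real.pi := Real.mul_self_sqrt Real.pi_pos.le
  have hB3 : |1 / (2 * Real.pi) * A - 1 / (2 * Real.sqrt Real.pi) * Z| ≤ CV := by
    have e : 1 / (2 * Real.pi) * A - 1 / (2 * Real.sqrt Real.pi) * Z =
        1 / (2 * Real.pi) * (A - Real.sqrt Real.pi * Z) := by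
      have : 1 / (2 * Real.sqrt Real.pi) = 1 / (2 * Real.pi) * Real.sqrt Real.pi := by
        rw [div_mul_eq_mul_div, one_mul, div_eq_div_iff (by positivity) (by positivity), one_mul]
        linear_combination (-2) * hsqsq
      rw [this]
      ring
    rw [e, abs_mul, abs_of_pos (by positivity : 0 < 1 / (2 * Real.pi))]
    have h3 : 1 / (2 * Real.pi) ≤ 1 := by
      rw [div_le_one (by positivity)]
      linarith [Real.pi_gt_three]
    calc 1 / (2 * Real.pi) * |A - Real.sqrt Real.pi * Z| ≤ 1 * CV :=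
          mul_le_mul h3 hA (abs_nonneg _) zero_le_one
      _ = CV := one_mul _
  rw [hMval] at hB2
  rw [hsplit]
  have key : (∫ u in (0 : ℝ)..1, qq u * Vps s u) + (∫ u in (1 : ℝ)..(L / 2), qq u * Vps s u) -
      1 / (2 * Real.sqrt Real.pi) * Z =
      (∫ u in (0 : ℝ)..1, qq u * Vps s u) +
      ((∫ u in (1 : ℝ)..(L / 2), qq u * Vps s u) - 1 / (2 * Real.pi) * A) +
      (1 / (2 * Real.pi) * A - 1 / (2 * Real.sqrt Real.pi) * Z) := by ring
  rw [key]
  refine (abs_add_three _ _ _).trans ?_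
  linarith

end Pool.Agent.U125.MV2.MTS
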