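import Mathlib
import Pool.Agent.U398.MV.Stm2
import Pool.Agent.U780.MV.PR

/-!
# Cosine sums over primes at an arbitrary height (package PRS of project MV2)
-/

set_option autoImplicit false

namespace Pool.Agent.U125.MV2.PRS

open Filter Topology Complex
open Pool.Agent.U780.MV.PR

/-- **Package PRS.** -/
theorem t_PRS : Pool.Agent.U398.MV.S_PRS := by
  obtain ⟨C1, hC10, hC1⟩ := D_bound
  have hQ0 : 0 ≤ ∑' p : Nat.Primes, ((p : ℕ) : ℝ) ^ (-(2 : ℝ)) :=
    tsum_nonneg fun p => Real.rpow_nonneg (Nat.cast_nonneg _) _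
  refine ⟨2 * C1 + (∑' p : Nat.Primes, ((p : ℕ) : ℝ) ^ (-(2 : ℝ))) + 1, by positivity, ?_⟩
  intro x hx h _
  have hx0 : 0 < x := by linarith
  set ℓ := Real.log x with hℓdef
  have hℓ : 1 ≤ ℓ := by
    rw [hℓdef, Real.le_log_iff_exp_le hx0]
    linarith [Real.exp_one_lt_d9]
  have hℓ0 : 0 < ℓ := by linarith
  set σ : ℝ := 1 + 1 / ℓ with hσ
  have hi0 : 0 < 1 / ℓ := by positivity
  have hi1 : 1 / ℓ ≤ 1 := by
    rw [div_le_one hℓ0]
    exact hℓ
  have hse : ((σ : ℝ) : ℂ) + h * I = (⟨σ, h⟩ : ℂ) := by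
    apply Complex.ext <;> simp
  rw [hse]
  set s : ℂ := ⟨σ, h⟩ with hs
  have hσ1 : 1 < σ := by rw [hσ]; linarith
  have hσ2 : σ ≤ 2 := by rw [hσ]; linarith
  have hA := log_zeta s hσ1
  obtain ⟨hDs, hD⟩ := hC1 σ hσ1 hσ2
  have hD' : (∑' p : Nat.Primes, ((p : ℕ) : ℝ) ^ (-σ) * Real.log (p : ℕ)) ≤ C1 * ℓ := by
    refine hD.trans (le_of_eq ?_)
    rw [hσ]
    field_simp
    ring
  set N : ℕ := ⌊x⌋₊ with hN
  set F : ℕ → ℝ := fun n => Real.cos (h * Real.log n) / n with hF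
  obtain ⟨hfs, hfe⟩ := fin_eq N F
  have hsz : Summable (fun p : Nat.Primes => ((p : ℕ) : ℂ) ^ (-s)) := by
    refine Summable.of_norm ?_
    exact (summable_primes σ hσ1).congr (fun p => (norm_z p s).symm)
  have hszre : Summable (fun p : Nat.Primes => (((p : ℕ) : ℂ) ^ (-s)).re) :=
    (Complex.hasSum_re hsz.hasSum).summable
  have hdiff : |(∑ p ∈ (Finset.Icc 1 N).filter Nat.Prime, F p) -
      (∑' p : Nat.Primes, ((p : ℕ) : ℂ) ^ (-s)).re| ≤ 2 * C1 := by
    rw [hfe, Complex.re_tsum hsz, ← hfs.tsum_sub hszre]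
    have hb : ∀ p : Nat.Primes, ‖(if (p : ℕ) ≤ N then F p else 0) - (((p : ℕ) : ℂ) ^ (-s)).re‖ ≤
        2 / ℓ * (((p : ℕ) : ℝ) ^ (-σ) * Real.log (p : ℕ)) := by
      intro p
      have hp : (0 : ℝ) < ((p : ℕ) : ℝ) := by exact_mod_cast p.2.pos
      have hp1 : (1 : ℝ) ≤ ((p : ℕ) : ℝ) := by exact_mod_cast p.2.one_lt.le
      have hlp : 0 ≤ Real.log (p : ℕ) := Real.log_nonneg hp1
      have hps : 0 ≤ ((p : ℕ) : ℝ) ^ (-σ) := Real.rpow_nonneg hp.le _
      have hcos := Real.abs_cos_le_one (h * Real.log (p : ℕ))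
      rw [hs, re_z, Real.norm_eq_abs]
      by_cases hpN : (p : ℕ) ≤ N
      · rw [if_pos hpN, hF]
        simp only
        have hpx : ((p : ℕ) : ℝ) ≤ x := by
          have h2 : ((p : ℕ) : ℝ) ≤ (N : ℝ) := by exact_mod_cast hpN
          exact h2.trans (Nat.floor_le hx0.le)
        set u : ℝ := Real.log (p : ℕ) / ℓ with hu
        have hu0 : 0 ≤ u := div_nonneg hlp hℓ0.le
        have hu1 : u ≤ 1 := by
          rw [hu, div_le_one hℓ0]
          exact Real.log_le_log hp hpx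
        have e1 : 1 / ((p : ℕ) : ℝ) = ((p : ℕ) : ℝ) ^ (-σ) * Real.exp u := by
          rw [Real.rpow_def_of_pos hp, ← Real.exp_add, one_div, ← Real.exp_log (inv_pos.2 hp),
            Real.log_inv]
          congr 1
          rw [hσ, hu]
          field_simp
          ring
        have e2 : Real.exp u - 1 ≤ 2 * u := by
          have h3 := Real.abs_exp_sub_one_le (x := u) (by rw [abs_of_nonneg hu0]; exact hu1)
          rw [abs_of_nonneg hu0] at h3
          exact (le_abs_self _).trans h3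
        have e3 : 0 ≤ Real.exp u - 1 := by linarith [Real.add_one_le_exp u]
        have e4 : Real.cos (h * Real.log (p : ℕ)) / ((p : ℕ) : ℝ) -
            ((p : ℕ) : ℝ) ^ (-σ) * Real.cos (h * Real.log (p : ℕ)) =
            Real.cos (h * Real.log (p : ℕ)) * (((p : ℕ) : ℝ) ^ (-σ) * (Real.exp u - 1)) := by
          have : Real.cos (h * Real.log (p : ℕ)) / ((p : ℕ) : ℝ) =
              Real.cos (h * Real.log (p : ℕ)) * (1 / ((p : ℕ) : ℝ)) := by ring
          rw [this, e1]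
          ring
        rw [e4, abs_mul, abs_of_nonneg (mul_nonneg hps e3)]
        calc |Real.cos (h * Real.log (p : ℕ))| * (((p : ℕ) : ℝ) ^ (-σ) * (Real.exp u - 1))
            ≤ 1 * (((p : ℕ) : ℝ) ^ (-σ) * (2 * u)) := by
              refine mul_le_mul hcos (mul_le_mul_of_nonneg_left e2 hps)
                (mul_nonneg hps e3) (by norm_num)
          _ = 2 / ℓ * (((p : ℕ) : ℝ) ^ (-σ) * Real.log (p : ℕ)) := by
              rw [hu]
              ring
      · rw [if_neg hpN, zero_sub, abs_neg, abs_mul, abs_of_nonneg hps]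
        have hpx : x < ((p : ℕ) : ℝ) := by
          rw [not_le, hN] at hpN
          exact Nat.lt_of_floor_lt hpN
        have h2 : ℓ ≤ Real.log (p : ℕ) := Real.log_le_log hx0 hpx.le
        have h3 : 1 ≤ Real.log (p : ℕ) / ℓ := by
          rw [le_div_iff₀ hℓ0]
          linarith
        calc ((p : ℕ) : ℝ) ^ (-σ) * |Real.cos (h * Real.log (p : ℕ))|
            ≤ ((p : ℕ) : ℝ) ^ (-σ) * 1 := mul_le_mul_of_nonneg_left hcos hps
          _ ≤ ((p : ℕ) : ℝ) ^ (-σ) * (2 * (Real.log (p : ℕ) / ℓ)) :=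
              mul_le_mul_of_nonneg_left (by linarith) hps
          _ = 2 / ℓ * (((p : ℕ) : ℝ) ^ (-σ) * Real.log (p : ℕ)) := by ring
    have h4 := tsum_of_norm_bounded (hDs.mul_left (2 / ℓ)).hasSum hb
    rw [Real.norm_eq_abs, tsum_mul_left] at h4
    refine h4.trans ?_
    calc 2 / ℓ * ∑' p : Nat.Primes, ((p : ℕ) : ℝ) ^ (-σ) * Real.log (p : ℕ)
        ≤ 2 / ℓ * (C1 * ℓ) := mul_le_mul_of_nonneg_left hD' (by positivity)
      _ = 2 * C1 := by field_simp
  have hfin : |(∑ p ∈ (Finset.Icc 1 N).filter Nat.Prime, F p) - Real.log ‖riemannZeta s‖| ≤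
      2 * C1 + (∑' p : Nat.Primes, ((p : ℕ) : ℝ) ^ (-(2 : ℝ))) + 1 := by
    rw [abs_le] at *
    constructor <;> linarith [hA.1, hA.2, hdiff.1, hdiff.2]
  exact hfin

end Pool.Agent.U125.MV2.PRS
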